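import Pool.Agent.H27.AP.Targets

/-!
# Board apr_modules, row PNB (helper79): upper bound for the n-th prime
-/

set_option autoImplicit false

open Finset Real

namespace Pool.Agent.H79.APR

open Pool.Agent.H27.AP

theorem pf_PNB : T_PNB := by
  refine ⟨65, by norm_num, ?_⟩
  intro n hn
  have hn1 : (1 : ℝ) ≤ n := by exact_mod_cast hn
  have hlog : 0 ≤ Real.log n := Real.log_nonneg hn1
  obtain ⟨y, hy⟩ : ∃ y : ℝ, y = 64 * n * (1 + Real.log n) := ⟨_, rfl⟩
  have hnl : (n : ℝ) ≤ n * (1 + Real.log n) := by nlinarith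
  have hy64 : 64 ≤ y := by nlinarith
  obtain ⟨m, hm⟩ : ∃ m : ℕ, m = ⌈y⌉₊ := ⟨_, rfl⟩
  have hm1 : y ≤ m := by rw [hm]; exact Nat.le_ceil y
  have hm2 : (m : ℝ) < y + 1 := by rw [hm]; exact Nat.ceil_lt_add_one (by linarith)
  have hm64 : (64 : ℝ) ≤ m := by linarith
  have hlm0 : 0 < Real.log m := Real.log_pos (by linarith)
  have hlm : Real.log m ≤ 5 + 2 * Real.log n := by
    have h1 : (m : ℝ) ≤ 128 * n * n := by
      have h2 : 1 + Real.log n ≤ n := by
        linarith [Real.log_le_sub_one_of_pos (by linarith : (0 : ℝ) < n)]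
      have h3 : (n : ℝ) * (1 + Real.log n) ≤ n * n := mul_le_mul_of_nonneg_left h2 (by linarith)
      nlinarith
    have h4 : Real.log (128 * n * n) = 7 * Real.log 2 + 2 * Real.log n := by
      rw [Real.log_mul (by positivity) (by positivity), Real.log_mul (by norm_num)
        (by positivity), show (128 : ℝ) = 2 ^ 7 by norm_num, Real.log_pow]
      push_cast
      ring
    have h5 := Real.log_le_log (by linarith) h1
    rw [h4] at h5
    linarith [Real.log_two_lt_d9]
  have hlm1 : Real.log ((m : ℝ) + 1) ≤ 2 * Real.log m := by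
    have h1 : (m : ℝ) + 1 ≤ (m : ℝ) ^ 2 := by nlinarith
    have h2 := Real.log_le_log (by linarith) h1
    rw [Real.log_pow] at h2
    exact_mod_cast h2
  have hpi := Chebyshev.pi_ge m
  have hnpi : (n : ℝ) ≤ (Nat.primeCounting m : ℝ) := by
    refine le_trans ?_ hpi
    rw [le_div_iff₀ hlm0]
    have h1 : (n : ℝ) * Real.log m ≤ n * (5 + 2 * Real.log n) :=
      mul_le_mul_of_nonneg_left hlm (by linarith)
    have h2 : Real.log m ≤ n * Real.log m := by nlinarith
    have h3 : y * (69 / 100) ≤ m * Real.log 2 :=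
      mul_le_mul hm1 (by linarith [Real.log_two_gt_d9]) (by norm_num) (by linarith)
    have h4 : (0 : ℝ) ≤ n * Real.log n := by positivity
    nlinarith
  have hnpi' : n ≤ Nat.primeCounting m := by exact_mod_cast hnpi
  have hlt : p n < m + 1 := by
    unfold p
    apply Nat.nth_lt_of_lt_count
    have : Nat.count Nat.Prime (m + 1) = Nat.primeCounting m := rfl
    rw [this]
    omega
  have hle : (p n : ℝ) ≤ m := by exact_mod_cast Nat.lt_succ_iff.1 hlt
  linarith

end Pool.Agent.H79.APR
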